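import Mathlib

set_option autoImplicit false

open MeasureTheory

namespace Pool.Agent.Helper82.PV

/-- Euclidean space of dimension `d`. -/
abbrev V (d : ℕ) := EuclideanSpace ℝ (Fin d)

/-- the unit sphere -/
abbrev Sph (d : ℕ) := Metric.sphere (0 : V d) 1

/-- sphere measure -/
noncomputable abbrev sg (d : ℕ) : Measure (Sph d) := Measure.toSphere (volume : Measure (V d))

/-- reflection in the hyperplane orthogonal to `Y` (identity if `Y = 0`). -/
noncomputable def sref {d : ℕ} (Y x : V d) : V d := x - (2 * inner ℝ Y x / ‖Y‖ ^ 2) • Y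

/-- projection to the orthogonal complement of `x` (for `‖x‖ = 1`). -/
noncomputable def Pr {d : ℕ} (x : V d) : V d →L[ℝ] V d :=
  ContinuousLinearMap.id ℝ (V d) - (innerSL ℝ x).smulRight x

/-- tangential derivative -/
noncomputable def Dt {d : ℕ} (W : V d → V d) (x : V d) : V d →L[ℝ] V d :=
  (Pr x).comp ((fderiv ℝ W x).comp (Pr x))

/-- the determinant under the root -/
noncomputable def gram {d : ℕ} (W : V d → V d) (x : V d) : ℝ :=
  LinearMap.det (ContinuousLinearMap.id ℝ (V d)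
    + (ContinuousLinearMap.adjoint (Dt W x)).comp (Dt W x)).toLinearMap

/-- density -/
noncomputable def dens {d : ℕ} (W : V d → V d) (x : V d) : ℝ := Real.sqrt (gram W x)

/-- volume of a field -/
noncomputable def vol {d : ℕ} (W : V d → V d) : ENNReal :=
  ∫⁻ x : Sph d, ENNReal.ofReal (dens W x.1) ∂(sg d)

/-- admissible fields -/
def Adm {d : ℕ} (p : V d) (W : V d → V d) : Prop :=
  (∃ U : Set (V d), IsOpen U ∧ Metric.sphere (0 : V d) 1 \ {p} ⊆ U ∧
      ContDiffOn ℝ ((⊤ : ℕ∞) : WithTop ℕ∞) W U) ∧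
    ∀ x ∈ Metric.sphere (0 : V d) 1 \ {p}, ‖W x‖ = 1 ∧ inner ℝ (W x) x = 0

/-- the parallel transport field -/
noncomputable def Pb {d : ℕ} (p b x : V d) : V d := b - (inner ℝ b x / (1 - inner ℝ p x)) • (x - p)

/-- the auxiliary map `Psi_q` -/
noncomputable def Psi {d : ℕ} (p : V d) (X : V d → V d) (q Y : V d) : V d :=
  ‖Y‖ ^ 2 • X (sref Y q) - (2 * inner ℝ Y (X (sref Y q))) • Y + (inner ℝ Y (q - p)) • q

/-- `|Y ∧ (q-p)|^2` -/
noncomputable def wd {d : ℕ} (p q Y : V d) : ℝ := ‖Y‖ ^ 2 * ‖q - p‖ ^ 2 - (inner ℝ Y (q - p)) ^ 2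

/-- the kernel, with `q` as variable -/
noncomputable def kq {d : ℕ} (p : V d) (X : V d → V d) (q Y : V d) : ℝ :=
  Real.exp (-‖Y‖ ^ 2 / 2) / Real.sqrt (wd p q Y) * (fderiv ℝ (Psi p X q) Y).det

/-- the kernel, with `x = s_Y q` as variable -/
noncomputable def hker {d : ℕ} (p : V d) (X : V d → V d) (x Y : V d) : ℝ := kq p X (sref Y x) Y

/-- the calibration form evaluated on the field `X` at `x` -/
noncomputable def Theta {d : ℕ} (p : V d) (X : V d → V d) (x : V d) : ℝ := ∫ Y : V d, hker p X x Y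

/-- the derivative of `X` at `x` is that of a parallel transport field -/
def LeafAt {d : ℕ} (p : V d) (X : V d → V d) (x : V d) : Prop :=
  ∀ ξ : V d, inner ℝ ξ x = 0 →
    fderiv ℝ X x ξ = (1 / (1 - inner ℝ x p)) •
      ((inner ℝ (X x) ξ) • (p - x) - (inner ℝ (X x) p) • ξ)

/-! ### coordinates for the pointwise inequality -/

/-- coordinates `(u,t,z | f_j)` -/
abbrev K (k : ℕ) := Fin 3 ⊕ Fin (2 * k)
/-- rows of `L` -/
abbrev I (k : ℕ) := Option (Fin (2 * k))
/-- labels of the bivectors `tau_b`, `a_c ∧ f_j` -/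
abbrev Lab (k : ℕ) := Fin 3 ⊕ (Fin (2 * k) × Fin 2)

/-- `a 0 = (1,0,0)`, `a 1 = (0,s,rho)` -/
def av (ρ s : ℝ) (c : Fin 2) : Fin 3 → ℝ := if c = 0 then ![1, 0, 0] else ![0, s, ρ]

/-- cross product -/
def cr (a b : Fin 3 → ℝ) : Fin 3 → ℝ :=
  ![a 1 * b 2 - a 2 * b 1, a 2 * b 0 - a 0 * b 2, a 0 * b 1 - a 1 * b 0]

/-- contraction of a bivector with `y` -/
noncomputable def iota {k : ℕ} (ρ s : ℝ) (β : Lab k → ℝ) (y : K k → ℝ) : K k → ℝ
  | Sum.inl i => cr (fun b => β (Sum.inl b)) (fun b => y (Sum.inl b)) i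
      - ∑ j, (∑ c, β (Sum.inr (j, c)) * av ρ s c i) * y (Sum.inr j)
  | Sum.inr j => ∑ c, β (Sum.inr (j, c)) * (∑ i, av ρ s c i * y (Sum.inl i))

/-- the matrix with rows `z, y, iota L_none, iota L_j` -/
noncomputable def Mat {k : ℕ} (ρ s : ℝ) (L : I k → Lab k → ℝ) (y : K k → ℝ) :
    Matrix (K k) (K k) ℝ
  | Sum.inl i => if i = 0 then (Pi.single (Sum.inl 2) 1 : K k → ℝ)
      else if i = 1 then y else iota ρ s (L none) y
  | Sum.inr j => iota ρ s (L (some j)) y

/-- squared norm of `y` without the `z`-coordinate -/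
noncomputable def qz {k : ℕ} (y : K k → ℝ) : ℝ := (∑ i, y i ^ 2) - y (Sum.inl 2) ^ 2

/-- weight -/
noncomputable def gz {k : ℕ} (y : K k → ℝ) : ℝ :=
  Real.exp (-(∑ i, y i ^ 2) / 2) / Real.sqrt (qz y)

/-- the integrated form -/
noncomputable def th {k : ℕ} (ρ s : ℝ) (L : I k → Lab k → ℝ) : ℝ :=
  ∫ y : K k → ℝ, gz y * (Mat ρ s L y).det

/-- the constant -/
noncomputable def kap (k : ℕ) : ℝ :=
  ∫ y : K k → ℝ, gz y * (y (Sum.inl 0) ^ (2 * k) * qz y)

/-- Gram determinant of the rows -/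
noncomputable def gL {k : ℕ} (L : I k → Lab k → ℝ) : ℝ :=
  (Matrix.of L * (Matrix.of L).transpose).det

/-- the leaf conditions on the rows -/
def LeafRows {k : ℕ} (L : I k → Lab k → ℝ) : Prop :=
  ∀ r, L r (Sum.inl 0) = 0 ∧ L r (Sum.inl 1) = 0 ∧ ∀ j, L r (Sum.inr (j, 1)) = 0

/-- square part of `L` used at the leaf -/
def ML {k : ℕ} (L : I k → Lab k → ℝ) : Matrix (I k) (I k) ℝ := fun r c =>
  match c with
  | none => L r (Sum.inl 2)
  | some j => L r (Sum.inr (j, 0))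

end Pool.Agent.Helper82.PV
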